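import Pool.Agent.helper76.DP.Spec
import Mathlib

/-! dp:LAW, the law of large numbers for the classes -/

set_option autoImplicit false

namespace Pool.Agent.DP

open Finset
open Pool.Agent.FR (mean Eig)
open Pool.Agent.AT (Qk Pair)
open Pool.Agent.HF (Om TC NoTC)
open Pool.Agent.IT (Ad)

/-- the number of the members of a class in an interval -/
theorem LAW_cnt (Q m : ℕ) (hQ : 1 ≤ Q) (V κ : ℤ) (S : Finset ℤ) (hS : ∀ x ∈ S, V - (Q : ℤ) * m ≤ x ∧ x ≤ V + (Q : ℤ) * m ∧ (Q : ℤ) ∣ x - κ) :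
    #S ≤ 2 * m + 1 := by
  have hQ' : (0 : ℤ) < Q := by exact_mod_cast hQ
  have h1 : #S ≤ #(Finset.Icc (0 : ℤ) (2 * m)) := by
    refine Finset.card_le_card_of_injOn (fun x => (x - (V - (Q : ℤ) * m)) / Q) ?_ ?_
    · intro x hx
      obtain ⟨h2, h3, -⟩ := hS x (Finset.mem_coe.1 hx)
      rw [Finset.mem_coe, Finset.mem_Icc]
      constructor
      · exact Int.ediv_nonneg (by linarith) hQ'.le
      · rw [← Int.lt_add_one_iff]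
        apply Int.ediv_lt_of_lt_mul hQ'
        nlinarith
    · intro x hx y hy hxy
      obtain ⟨-, -, h2⟩ := hS x (Finset.mem_coe.1 hx)
      obtain ⟨-, -, h3⟩ := hS y (Finset.mem_coe.1 hy)
      have h4 : (Q : ℤ) ∣ x - y := by
        have h5 := dvd_sub h2 h3
        have h6 : x - κ - (y - κ) = x - y := by ring
        rwa [h6] at h5
      have hxy' : (x - (V - (Q : ℤ) * m)) / Q = (y - (V - (Q : ℤ) * m)) / Q := hxy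
      have e1 := Int.emod_add_mul_ediv (x - (V - (Q : ℤ) * m)) Q
      have e2 := Int.emod_add_mul_ediv (y - (V - (Q : ℤ) * m)) Q
      have e3 : (x - (V - (Q : ℤ) * m)) % Q = (y - (V - (Q : ℤ) * m)) % Q := by
        apply Int.emod_emod_of_dvd _ (dvd_refl _) |>.symm.trans
        rw [Int.emod_emod_of_dvd _ (dvd_refl _)]
        apply Int.emod_eq_emod_iff_emod_sub_eq_zero.2
        have h5 : x - (V - (Q : ℤ) * m) - (y - (V - (Q : ℤ) * m)) = x - y := by ring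
        rw [h5]
        exact Int.emod_eq_zero_of_dvd h4
      rw [hxy', e3, e2] at e1
      linarith
  refine h1.trans ?_
  rw [Int.card_Icc]
  omega

open Classical in
/-- the sum of `G` over one class -/
noncomputable def LAW_H (Q₀ q : ℕ) (I : Finset ℤ) (G : ℤ → ℝ) (κ₀ : ZMod Q₀) (κ₁ : ZMod q) : ℝ :=
  ∑ x ∈ I.filter (fun x : ℤ => (x : ZMod Q₀) = κ₀ ∧ (x : ZMod q) = κ₁), G x

theorem LAW_H0 (Q₀ q : ℕ) (I : Finset ℤ) (G : ℤ → ℝ) (hG : ∀ x, 0 ≤ G x ∧ G x ≤ 1) (κ₀ : ZMod Q₀) (κ₁ : ZMod q) :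
    0 ≤ LAW_H Q₀ q I G κ₀ κ₁ := by
  unfold LAW_H
  exact Finset.sum_nonneg fun x _ => (hG x).1

theorem LAW_Hsum (Q₀ q : ℕ) [NeZero Q₀] [NeZero q] (I : Finset ℤ) (G : ℤ → ℝ) :
    ∑ κ₀ : ZMod Q₀, ∑ κ₁ : ZMod q, LAW_H Q₀ q I G κ₀ κ₁ = ∑ x ∈ I, G x := by
  classical
  unfold LAW_H
  rw [← Fintype.sum_prod_type' (fun (κ₀ : ZMod Q₀) (κ₁ : ZMod q) => ∑ x ∈ I.filter (fun x : ℤ => (x : ZMod Q₀) = κ₀ ∧ (x : ZMod q) = κ₁), G x)]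
  rw [← Finset.sum_fiberwise_of_maps_to (s := I) (t := (Finset.univ : Finset (ZMod Q₀ × ZMod q)))
    (g := fun x : ℤ => ((x : ZMod Q₀), (x : ZMod q))) (fun _ _ => Finset.mem_univ _) G]
  refine Finset.sum_congr rfl fun κ _ => ?_
  refine Finset.sum_congr ?_ fun _ _ => rfl
  refine Finset.filter_congr fun x _ => ?_
  constructor
  · rintro ⟨h1, h2⟩
    exact Prod.ext h1 h2
  · intro h
    rw [← h]
    exact ⟨rfl, rfl⟩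

theorem LAW_Hle (Q₀ q m : ℕ) (hQ₀ : 1 ≤ Q₀) (hq : 1 ≤ q) (hcop : Nat.Coprime Q₀ q) (V : ℤ) (I : Finset ℤ)
    (hI : ∀ x ∈ I, V - ((Q₀ * q : ℕ) : ℤ) * m ≤ x ∧ x ≤ V + ((Q₀ * q : ℕ) : ℤ) * m) (G : ℤ → ℝ)
    (hG : ∀ x, 0 ≤ G x ∧ G x ≤ 1) (κ₀ : ZMod Q₀) (κ₁ : ZMod q) : LAW_H Q₀ q I G κ₀ κ₁ ≤ 2 * m + 1 := by
  classical
  unfold LAW_H
  set S := I.filter (fun x : ℤ => (x : ZMod Q₀) = κ₀ ∧ (x : ZMod q) = κ₁) with hSd
  have h1 : ∑ x ∈ S, G x ≤ ∑ x ∈ S, (1 : ℝ) := Finset.sum_le_sum fun x _ => (hG x).2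
  rw [Finset.sum_const, nsmul_eq_mul, mul_one] at h1
  refine h1.trans ?_
  have h2 : #S ≤ 2 * m + 1 := by
    rcases S.eq_empty_or_nonempty with h | ⟨x₀, hx₀⟩
    · rw [h]
      simp
    · refine LAW_cnt (Q₀ * q) m (Nat.mul_pos hQ₀ hq) V x₀ S fun x hx => ?_
      have hx1 := Finset.mem_filter.1 hx
      have hx2 := Finset.mem_filter.1 hx₀
      refine ⟨(hI x hx1.1).1, (hI x hx1.1).2, ?_⟩
      have h3 : (Q₀ : ℤ) ∣ x - x₀ := (ZMod.intCast_eq_intCast_iff_dvd_sub x₀ x Q₀).1 (hx2.2.1.trans hx1.2.1.symm)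
      have h4 : (q : ℤ) ∣ x - x₀ := (ZMod.intCast_eq_intCast_iff_dvd_sub x₀ x q).1 (hx2.2.2.trans hx1.2.2.symm)
      rw [Nat.cast_mul]
      exact (Nat.isCoprime_iff_coprime.2 hcop).mul_dvd h3 h4
  exact_mod_cast h2

/-- one row of places -/
theorem LAW_row (a b Q₀ q X : ℕ) [NeZero Q₀] [NeZero q] (V r r' P : ℤ) (z z' : ZMod Q₀) (v v' : ZMod q) (G : ℤ → ℝ) (hb : 1 ≤ b)
    (hV : ((Q₀ * q : ℕ) : ℤ) ∣ V) (hG : ∀ x, 0 ≤ G x ∧ G x ≤ 1)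
    (hr : (r : ZMod Q₀) = z ∧ (r : ZMod q) = v ∧ 0 ≤ r ∧ r < (Q₀ * q : ℕ)) (hr' : (r' : ZMod Q₀) = z' ∧ (r' : ZMod q) = v' ∧ 0 ≤ r' ∧ r' < (Q₀ * q : ℕ))
    (hP : 0 ≤ P) (hPX : P < X) :
    ∑ P' : Fin X, G (V + (a : ℤ) * r - (b : ℤ) * r' + (Q₀ * q : ℕ) * ((a : ℤ) * P - (b : ℤ) * ((P' : ℕ) : ℤ))) ≤
      LAW_H Q₀ q (Icc (V - ((a + b) * (Q₀ * q) * (X + 1) : ℕ)) (V + ((a + b) * (Q₀ * q) * (X + 1) : ℕ))) G (a * z - b * z') (a * v - b * v') := by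
  classical
  have hQ : (0 : ℤ) < ((Q₀ * q : ℕ) : ℤ) := by exact_mod_cast Nat.mul_pos (NeZero.pos Q₀) (NeZero.pos q)
  set Q : ℤ := ((Q₀ * q : ℕ) : ℤ) with hQd
  set c : Fin X → ℤ := fun P' => V + (a : ℤ) * r - (b : ℤ) * r' + Q * ((a : ℤ) * P - (b : ℤ) * ((P' : ℕ) : ℤ)) with hc
  have hinj : Function.Injective c := by
    intro x y hxy
    have h1 : V + (a : ℤ) * r - (b : ℤ) * r' + Q * ((a : ℤ) * P - (b : ℤ) * ((x : ℕ) : ℤ)) = V + (a : ℤ) * r - (b : ℤ) * r' + Q * ((a : ℤ) * P - (b : ℤ) * ((y : ℕ) : ℤ)) := hxy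
    have h2 : Q * ((a : ℤ) * P - (b : ℤ) * ((x : ℕ) : ℤ)) = Q * ((a : ℤ) * P - (b : ℤ) * ((y : ℕ) : ℤ)) := add_left_cancel h1
    have h3 := mul_left_cancel₀ hQ.ne' h2
    have h4 : (b : ℤ) * ((x : ℕ) : ℤ) = (b : ℤ) * ((y : ℕ) : ℤ) := by linarith
    have hb' : (b : ℤ) ≠ 0 := by exact_mod_cast (by omega : b ≠ 0)
    have h5 := mul_left_cancel₀ hb' h4
    exact Fin.ext (by exact_mod_cast h5)
  have h1 : ∑ P' : Fin X, G (c P') = ∑ x ∈ (Finset.univ : Finset (Fin X)).image c, G x := by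
    rw [Finset.sum_image fun x _ y _ h => hinj h]
  have h2 : ∑ P' : Fin X, G (V + (a : ℤ) * r - (b : ℤ) * r' + (Q₀ * q : ℕ) * ((a : ℤ) * P - (b : ℤ) * ((P' : ℕ) : ℤ))) = ∑ P' : Fin X, G (c P') := rfl
  rw [h2, h1]
  unfold LAW_H
  refine Finset.sum_le_sum_of_subset_of_nonneg ?_ fun x _ _ => (hG x).1
  intro x hx
  obtain ⟨P', -, rfl⟩ := Finset.mem_image.1 hx
  have hP' : ((P' : ℕ) : ℤ) < X := by exact_mod_cast P'.2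
  have hP'0 : (0 : ℤ) ≤ ((P' : ℕ) : ℤ) := Int.natCast_nonneg _
  have ha0 : (0 : ℤ) ≤ a := Int.natCast_nonneg _
  have hb0 : (0 : ℤ) ≤ b := Int.natCast_nonneg _
  have hX0 : (0 : ℤ) ≤ X := Int.natCast_nonneg _
  obtain ⟨hr1, hr2, hr3, hr4⟩ := hr
  obtain ⟨hr1', hr2', hr3', hr4'⟩ := hr'
  rw [Finset.mem_filter, Finset.mem_Icc]
  have hW : (((a + b) * (Q₀ * q) * (X + 1) : ℕ) : ℤ) = (a + b) * Q * (X + 1) := by
    rw [hQd]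
    push_cast
    ring
  rw [hW]
  have h5 : (a : ℤ) * r ≤ a * Q := mul_le_mul_of_nonneg_left hr4.le ha0
  have h6 : (b : ℤ) * r' ≤ b * Q := mul_le_mul_of_nonneg_left hr4'.le hb0
  have h7 : Q * ((a : ℤ) * P) ≤ Q * (a * X) := mul_le_mul_of_nonneg_left (mul_le_mul_of_nonneg_left hPX.le ha0) hQ.le
  have h8 : Q * ((b : ℤ) * ((P' : ℕ) : ℤ)) ≤ Q * (b * X) := mul_le_mul_of_nonneg_left (mul_le_mul_of_nonneg_left hP'.le hb0) hQ.le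
  have h9 : 0 ≤ (a : ℤ) * r := mul_nonneg ha0 hr3
  have h10 : 0 ≤ (b : ℤ) * r' := mul_nonneg hb0 hr3'
  have h11 : 0 ≤ Q * ((a : ℤ) * P) := mul_nonneg hQ.le (mul_nonneg ha0 hP)
  have h12 : 0 ≤ Q * ((b : ℤ) * ((P' : ℕ) : ℤ)) := mul_nonneg hQ.le (mul_nonneg hb0 hP'0)
  have h13 : 0 ≤ (a : ℤ) * Q := mul_nonneg ha0 hQ.le
  have h14 : 0 ≤ (b : ℤ) * Q := mul_nonneg hb0 hQ.le
  have h15 : 0 ≤ Q * ((a : ℤ) * X) := mul_nonneg hQ.le (mul_nonneg ha0 hX0)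
  have h16 : 0 ≤ Q * ((b : ℤ) * X) := mul_nonneg hQ.le (mul_nonneg hb0 hX0)
  have hexp : (a + b) * Q * (X + 1) = Q * (a * X) + Q * (b * X) + a * Q + (b : ℤ) * Q := by ring
  have hcx : c P' = V + (a : ℤ) * r - (b : ℤ) * r' + Q * ((a : ℤ) * P) - Q * ((b : ℤ) * ((P' : ℕ) : ℤ)) := by
    rw [hc]
    ring
  obtain ⟨V', hV'⟩ := hV
  refine ⟨⟨?_, ?_⟩, ?_, ?_⟩
  · rw [hcx, hexp]
    linarith
  · rw [hcx, hexp]
    linarith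
  · have h17 : (Q : ZMod Q₀) = 0 := by
      rw [hQd]
      push_cast
      rw [ZMod.natCast_self, zero_mul]
    rw [hc, hV']
    push_cast
    rw [h17, hr1, hr1']
    ring
  · have h17 : (Q : ZMod q) = 0 := by
      rw [hQd]
      push_cast
      rw [ZMod.natCast_self, mul_zero]
    rw [hc, hV']
    push_cast
    rw [h17, hr2, hr2']
    ring

theorem LAW (hCRA : CRA_stmt) (hTVL : TVL_stmt) (hOMA : OMA_stmt) : LAW_stmt := by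
  classical
  intro a b Q₀ q y X _ _ ρ G V ha hb hab hdvd hcop hy hpr hX hρ hG hV
  set I : Finset ℤ := Icc (V - ((a + b) * (Q₀ * q) * (X + 1) : ℕ)) (V + ((a + b) * (Q₀ * q) * (X + 1) : ℕ)) with hI
  set Hs := LAW_H Q₀ q I G with hHs
  have hQ₀ : 1 ≤ Q₀ := NeZero.one_le
  have hq : 1 ≤ q := NeZero.one_le
  have hH0 : ∀ κ₀ κ₁, 0 ≤ Hs κ₀ κ₁ := fun κ₀ κ₁ => LAW_H0 Q₀ q I G hG κ₀ κ₁
  have hHC : ∀ κ₀ κ₁, Hs κ₀ κ₁ ≤ 5 * (a + b) * X := by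
    intro κ₀ κ₁
    have h1 := LAW_Hle Q₀ q ((a + b) * (X + 1)) hQ₀ hq hcop V I (by
      intro x hx
      rw [hI, Finset.mem_Icc] at hx
      have hW : (((a + b) * (Q₀ * q) * (X + 1) : ℕ) : ℤ) = ((Q₀ * q : ℕ) : ℤ) * (((a + b) * (X + 1) : ℕ) : ℤ) := by
        push_cast
        ring
      rw [hW] at hx
      exact hx) G hG κ₀ κ₁
    refine h1.trans ?_
    push_cast
    have h2 : (1 : ℝ) ≤ X := by exact_mod_cast hX
    have h3 : (1 : ℝ) ≤ a := by exact_mod_cast ha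
    have h4 : (1 : ℝ) ≤ b := by exact_mod_cast hb
    nlinarith
  -- the numbers of units
  obtain ⟨n₀, hn₀⟩ : ∃ n₀ : ℝ, n₀ = (Fintype.card (ZMod Q₀)ˣ : ℝ) := ⟨_, rfl⟩
  obtain ⟨n₁, hn₁⟩ : ∃ n₁ : ℝ, n₁ = (Fintype.card (ZMod q)ˣ : ℝ) := ⟨_, rfl⟩
  have hn₀p : 0 < n₀ := by
    rw [hn₀]
    exact_mod_cast Fintype.card_pos
  have hn₁p : 0 < n₁ := by
    rw [hn₁]
    exact_mod_cast Fintype.card_pos
  have hXp : (0 : ℝ) < X := by exact_mod_cast hX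
  have hyp : (0 : ℝ) < y := by exact_mod_cast (by omega : 0 < y)
  have hQ₀p : (0 : ℝ) < Q₀ := by exact_mod_cast hQ₀
  have hqp : (0 : ℝ) < q := by exact_mod_cast hq
  have hom : ∀ z z' : (ZMod Q₀)ˣ, 0 ≤ om a b Q₀ z z' ∧ om a b Q₀ z z' ≤ 2 := fun z z' => (hCRA Q₀ a b ha hb hab hdvd z z').2
  -- TVL
  have hT : ∀ κ₀ : ZMod Q₀, ∑ v : (ZMod q)ˣ, ∑ v' : (ZMod q)ˣ, Hs κ₀ ((a : ZMod q) * v - b * v') ≤ n₁ ^ 2 * ((∑ κ₁, Hs κ₀ κ₁) / q + 10 * (a + b) * X / y) := by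
    intro κ₀
    have h1 := hTVL q a b y (Hs κ₀) (5 * (a + b) * X) ha hb hab hy (fun p hp hpq => ⟨hpr p hp hpq, fun hpab => by
      have h2 : p ∣ Q₀ := (dvd_mul_of_dvd_right hpab 2).trans (by rw [← mul_assoc]; exact hdvd)
      have h3 : p ∣ Nat.gcd Q₀ q := Nat.dvd_gcd h2 hpq
      rw [hcop] at h3
      exact hp.one_lt.ne' (Nat.dvd_one.1 h3)⟩) (fun κ => ⟨hH0 κ₀ κ, hHC κ₀ κ⟩)
    unfold Pool.Agent.FR.mean at h1
    rw [Fintype.sum_prod_type, Fintype.card_prod, Nat.cast_mul, ZMod.card, ← hn₁, div_le_iff₀ (by positivity)] at h1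
    refine h1.trans (le_of_eq ?_)
    ring
  -- the sum over the places
  have hS : ∀ (z : (ZMod Q₀)ˣ) (v : (ZMod q)ˣ) (P : Fin X) (z' : (ZMod Q₀)ˣ) (v' : (ZMod q)ˣ), ∑ P' : Fin X, om a b Q₀ z z' *
      G (V + (a : ℤ) * ρ z v - (b : ℤ) * ρ z' v' + (Q₀ * q : ℕ) * ((a : ℤ) * ((P : ℕ) : ℤ) - (b : ℤ) * ((P' : ℕ) : ℤ))) ≤
      om a b Q₀ z z' * Hs (a * z - b * z') (a * v - b * v') := by
    intro z v P z' v'
    rw [← Finset.mul_sum]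
    refine mul_le_mul_of_nonneg_left ?_ (hom z z').1
    exact LAW_row a b Q₀ q X V (ρ z v) (ρ z' v') ((P : ℕ) : ℤ) z z' v v' G hb hV hG (hρ z v) (hρ z' v') (Int.natCast_nonneg _) (by exact_mod_cast P.2)
  unfold Pool.Agent.FR.mean
  have hcard : (Fintype.card (((ZMod Q₀)ˣ × (ZMod q)ˣ × Fin X) × ((ZMod Q₀)ˣ × (ZMod q)ˣ × Fin X)) : ℝ) = (n₀ * n₁ * X) ^ 2 := by
    simp only [Fintype.card_prod, Fintype.card_fin, Nat.cast_mul, ← hn₀, ← hn₁]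
    ring
  rw [hcard, div_le_iff₀ (by positivity)]
  simp only [Fintype.sum_prod_type]
  have h1 : ∑ z : (ZMod Q₀)ˣ, ∑ v : (ZMod q)ˣ, ∑ P : Fin X, ∑ z' : (ZMod Q₀)ˣ, ∑ v' : (ZMod q)ˣ, ∑ P' : Fin X, om a b Q₀ z z' *
      G (V + (a : ℤ) * ρ z v - (b : ℤ) * ρ z' v' + (Q₀ * q : ℕ) * ((a : ℤ) * ((P : ℕ) : ℤ) - (b : ℤ) * ((P' : ℕ) : ℤ))) ≤
      ∑ z : (ZMod Q₀)ˣ, ∑ v : (ZMod q)ˣ, ∑ _P : Fin X, ∑ z' : (ZMod Q₀)ˣ, ∑ v' : (ZMod q)ˣ, om a b Q₀ z z' * Hs (a * z - b * z') (a * v - b * v') :=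
    Finset.sum_le_sum fun z _ => Finset.sum_le_sum fun v _ => Finset.sum_le_sum fun P _ => Finset.sum_le_sum fun z' _ =>
      Finset.sum_le_sum fun v' _ => hS z v P z' v'
  refine h1.trans ?_
  have h2 : ∑ z : (ZMod Q₀)ˣ, ∑ v : (ZMod q)ˣ, ∑ _P : Fin X, ∑ z' : (ZMod Q₀)ˣ, ∑ v' : (ZMod q)ˣ, om a b Q₀ z z' * Hs (a * z - b * z') (a * v - b * v') =
      X * ∑ z : (ZMod Q₀)ˣ, ∑ z' : (ZMod Q₀)ˣ, om a b Q₀ z z' * ∑ v : (ZMod q)ˣ, ∑ v' : (ZMod q)ˣ, Hs (a * z - b * z') (a * v - b * v') := by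
    rw [Finset.mul_sum]
    refine Finset.sum_congr rfl fun z _ => ?_
    rw [Finset.mul_sum]
    simp only [Finset.sum_const, Finset.card_univ, Fintype.card_fin, nsmul_eq_mul]
    rw [← Finset.mul_sum, Finset.sum_comm, Finset.mul_sum]
    refine Finset.sum_congr rfl fun z' _ => ?_
    congr 1
    rw [Finset.mul_sum]
    refine Finset.sum_congr rfl fun v _ => ?_
    rw [Finset.mul_sum]
  rw [h2]
  set h : ZMod Q₀ → ℝ := fun κ₀ => (∑ κ₁, Hs κ₀ κ₁) / q with hh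
  have h3 : ∑ z : (ZMod Q₀)ˣ, ∑ z' : (ZMod Q₀)ˣ, om a b Q₀ z z' * ∑ v : (ZMod q)ˣ, ∑ v' : (ZMod q)ˣ, Hs (a * z - b * z') (a * v - b * v') ≤
      ∑ z : (ZMod Q₀)ˣ, ∑ z' : (ZMod Q₀)ˣ, om a b Q₀ z z' * (n₁ ^ 2 * (h (a * z - b * z') + 10 * (a + b) * X / y)) :=
    Finset.sum_le_sum fun z _ => Finset.sum_le_sum fun z' _ => mul_le_mul_of_nonneg_left (hT _) (hom z z').1
  have h4 := hOMA Q₀ a b h ha hb
  unfold Pool.Agent.FR.mean at h4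
  rw [Fintype.sum_prod_type, Fintype.card_prod, Nat.cast_mul, ← hn₀, div_eq_iff (by positivity)] at h4
  have hdn : 0 < dn a b := by
    unfold dn
    have h5 : 0 < 2 * a * b := by positivity
    have h6 : 0 < Nat.totient (2 * a * b) := Nat.totient_pos.2 h5
    have h7 : (0 : ℝ) < ((2 * a * b : ℕ) : ℝ) := by exact_mod_cast h5
    have h8 : (0 : ℝ) < (Nat.totient (2 * a * b) : ℝ) := by exact_mod_cast h6
    positivity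
  have h5 : (∑ κ with 0 < Nu Q₀ a b κ, h κ) ≤ (∑ x ∈ I, G x) / q := by
    have h6 : (∑ κ with 0 < Nu Q₀ a b κ, h κ) ≤ ∑ κ, h κ :=
      Finset.sum_le_sum_of_subset_of_nonneg (Finset.filter_subset _ _) fun κ _ _ => div_nonneg (Finset.sum_nonneg fun κ₁ _ => hH0 κ κ₁) hqp.le
    refine h6.trans (le_of_eq ?_)
    rw [hh]
    dsimp only
    rw [← Finset.sum_div, LAW_Hsum]
  have h6 : ∑ z : (ZMod Q₀)ˣ, ∑ z' : (ZMod Q₀)ˣ, om a b Q₀ z z' * h (a * z - b * z') ≤ (∑ x ∈ I, G x) / q / (dn a b * Q₀) * (n₀ * n₀) := by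
    rw [h4]
    refine mul_le_mul_of_nonneg_right ?_ (by positivity)
    exact div_le_div_of_nonneg_right h5 (by positivity)
  have h7 : ∑ z : (ZMod Q₀)ˣ, ∑ z' : (ZMod Q₀)ˣ, om a b Q₀ z z' ≤ 2 * (n₀ * n₀) := by
    have h8 : ∑ z : (ZMod Q₀)ˣ, ∑ z' : (ZMod Q₀)ˣ, om a b Q₀ z z' ≤ ∑ _z : (ZMod Q₀)ˣ, ∑ _z' : (ZMod Q₀)ˣ, (2 : ℝ) :=
      Finset.sum_le_sum fun z _ => Finset.sum_le_sum fun z' _ => (hom z z').2
    refine h8.trans (le_of_eq ?_)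
    simp only [Finset.sum_const, Finset.card_univ, nsmul_eq_mul, ← hn₀]
    ring
  have h8 : ∑ z : (ZMod Q₀)ˣ, ∑ z' : (ZMod Q₀)ˣ, om a b Q₀ z z' * (n₁ ^ 2 * (h (a * z - b * z') + 10 * (a + b) * X / y)) =
      n₁ ^ 2 * (∑ z : (ZMod Q₀)ˣ, ∑ z' : (ZMod Q₀)ˣ, om a b Q₀ z z' * h (a * z - b * z')) + n₁ ^ 2 * (10 * (a + b) * X / y) * ∑ z : (ZMod Q₀)ˣ, ∑ z' : (ZMod Q₀)ˣ, om a b Q₀ z z' := by
    rw [Finset.mul_sum, Finset.mul_sum, ← Finset.sum_add_distrib]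
    refine Finset.sum_congr rfl fun z _ => ?_
    rw [Finset.mul_sum, Finset.mul_sum, ← Finset.sum_add_distrib]
    refine Finset.sum_congr rfl fun z' _ => ?_
    ring
  have h9 : (0 : ℝ) ≤ n₁ ^ 2 * (10 * (a + b) * X / y) := by positivity
  calc (X : ℝ) * ∑ z : (ZMod Q₀)ˣ, ∑ z' : (ZMod Q₀)ˣ, om a b Q₀ z z' * ∑ v : (ZMod q)ˣ, ∑ v' : (ZMod q)ˣ, Hs (a * z - b * z') (a * v - b * v')
      ≤ X * (n₁ ^ 2 * ((∑ x ∈ I, G x) / q / (dn a b * Q₀) * (n₀ * n₀)) + n₁ ^ 2 * (10 * (a + b) * X / y) * (2 * (n₀ * n₀))) := by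
        refine mul_le_mul_of_nonneg_left (h3.trans ?_) hXp.le
        rw [h8]
        exact add_le_add (mul_le_mul_of_nonneg_left h6 (by positivity)) (mul_le_mul_of_nonneg_left h7 h9)
    _ = ((∑ x ∈ I, G x) / (dn a b * (Q₀ * q : ℕ) * X) + 20 * (a + b) / y) * (n₀ * n₁ * X) ^ 2 := by
        push_cast
        field_simp
        ring

end Pool.Agent.DP
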